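import Mathlib
import Pool.Agent.H110.TP.A6

/-!
# MP_6420b1_an: a partially rigid Toeplitz system which is not rigid
-/

set_option autoImplicit false

namespace Pool.Agent.Results.MP_6420b1_an.ThueMorseToeplitz

open MeasureTheory Set Filter Topology
open scoped ENNReal

/-- A Toeplitz sequence: it is not periodic and every coordinate is constant along some
arithmetic progression. -/
def IsToeplitz {A : Type} (x : ℤ → A) : Prop :=
  (¬ ∃ p : ℤ, 1 ≤ p ∧ ∀ n : ℤ, x (n + p) = x n) ∧
    ∀ n : ℤ, ∃ p : ℤ, 1 ≤ p ∧ ∀ k : ℤ, x (n + k * p) = x n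

/-- The left shift. -/
def shift {A : Type} (x : ℤ → A) : ℤ → A := fun n => x (n + 1)

/-- The closure of the two-sided shift orbit of `x` (product topology). -/
def orbitClosure {A : Type} [TopologicalSpace A] (x : ℤ → A) : Set (ℤ → A) :=
  closure {z | ∃ k : ℤ, z = fun n => x (n + k)}

/-- Measure-theoretic rigidity of the shift on `X` with the measure `μ`. -/
def Rigid {A : Type} [MeasurableSpace A] (X : Set (ℤ → A)) (μ : Measure (ℤ → A)) : Prop :=
  ∃ n : ℕ → ℕ, Tendsto n atTop atTop ∧ ∀ B : Set (ℤ → A), B ⊆ X → MeasurableSet B →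
    Tendsto (fun k => μ ((shift^[n k] '' B) ∩ B)) atTop (𝓝 (μ B))

/-- Partial rigidity of the shift on `X` with the measure `μ`, with the constant `δ`. -/
def PartiallyRigid {A : Type} [MeasurableSpace A] (X : Set (ℤ → A)) (μ : Measure (ℤ → A))
    (δ : ℝ) : Prop :=
  ∃ n : ℕ → ℕ, Tendsto n atTop atTop ∧ ∀ B : Set (ℤ → A), B ⊆ X → MeasurableSet B →
    ENNReal.ofReal δ * μ B ≤ liminf (fun k => μ ((shift^[n k] '' B) ∩ B)) atTop

theorem shift_iter {A : Type} (k : ℕ) (x : ℤ → A) : shift^[k] x = fun n => x (n + k) := by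
  induction k generalizing x with
  | zero => simp
  | succ k ih =>
    rw [Function.iterate_succ_apply, ih]
    funext n
    simp only [shift]
    congr 1
    push_cast
    ring

theorem measurable_shift : Measurable (shift : (ℤ → ZMod 2) → (ℤ → ZMod 2)) :=
  measurable_pi_lambda _ fun n => measurable_pi_apply (n + 1)

theorem image_eq (k : ℕ) (B : Set (ℤ → ZMod 2)) :
    shift^[k] '' B = (fun (x : ℤ → ZMod 2) (n : ℤ) => x (n - k)) ⁻¹' B := by
  ext x
  simp only [mem_image, mem_preimage]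
  constructor
  · rintro ⟨z, hz, rfl⟩
    rw [shift_iter]
    simpa using hz
  · intro h
    refine ⟨_, h, ?_⟩
    rw [shift_iter]
    funext n
    simp

theorem measurableSet_image (k : ℕ) {B : Set (ℤ → ZMod 2)} (hB : MeasurableSet B) :
    MeasurableSet (shift^[k] '' B) := by
  rw [image_eq]
  exact (measurable_pi_lambda _ fun n => measurable_pi_apply (n - (k : ℤ))) hB

theorem shift_iter_injective (k : ℕ) :
    Function.Injective (shift^[k] : (ℤ → ZMod 2) → (ℤ → ZMod 2)) := by
  intro x z h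
  rw [shift_iter, shift_iter] at h
  funext n
  have := congrFun h (n - k)
  simpa using this

open Pool.Agent.H110.TP

/-- the measure -/
noncomputable def mu : Measure (ℤ → ZMod 2) := Measure.map y P

instance : IsProbabilityMeasure mu := Measure.isProbabilityMeasure_map measurable_y.aemeasurable

theorem mp_y : MeasurePreserving y P mu := ⟨measurable_y, rfl⟩

theorem semi : Function.Semiconj y T shift := fun w => by
  funext n
  rw [y_T]
  rfl

theorem ergodic_mu : Ergodic shift mu :=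
  mp_y.ergodic_of_ergodic_semiconj ergodic_T measurable_shift semi

theorem meas_image (k : ℕ) {B : Set (ℤ → ZMod 2)} (hB : MeasurableSet B) :
    mu ((shift^[k] '' B) ∩ B) = P ((y ⁻¹' B) ∩ (⇑T)^[k] ⁻¹' (y ⁻¹' B)) := by
  have h1 : MeasurePreserving (shift^[k]) mu mu := ergodic_mu.toMeasurePreserving.iterate k
  rw [← h1.measure_preimage ((measurableSet_image k hB).inter hB).nullMeasurableSet,
    preimage_inter, preimage_image_eq _ (shift_iter_injective k),
    ← mp_y.measure_preimage (hB.inter (h1.measurable hB)).nullMeasurableSet, preimage_inter]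
  congr 2
  ext w
  simp only [mem_preimage]
  rw [(semi.iterate_right k).eq w]

theorem mem_X : ∀ᵐ x ∂mu, x ∈ orbitClosure eta := by
  have hm : MeasurableSet (orbitClosure eta) := isClosed_closure.measurableSet
  exact (ae_map_iff measurable_y.aemeasurable hm).2 ae_mem_orb

theorem ae_y0 {p : ℤ} (h : ∀ n, eta (n + p) = eta n) : ∀ᵐ w ∂P, y w p = y w 0 := by
  filter_upwards [ae_mem_orb] with w hw
  have hcl : IsClosed {x : ℤ → ZMod 2 | x p = x 0} :=
    isClosed_eq (continuous_apply p) (continuous_apply 0)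
  have hsub : orb eta ⊆ {x : ℤ → ZMod 2 | x p = x 0} := by
    refine closure_minimal ?_ hcl
    rintro _ ⟨k, rfl⟩
    simp only [mem_ofPred_eq, zero_add]
    rw [add_comm, h]
  exact hsub hw

theorem eta_not_periodic : ¬ ∃ p : ℤ, 1 ≤ p ∧ ∀ n : ℤ, eta (n + p) = eta n := by
  rintro ⟨p, hp, h⟩
  obtain ⟨q, rfl⟩ := Int.eq_ofNat_of_zero_le (by omega : 0 ≤ p)
  have h1 := D_lower (n := q) (by omega)
  have h2 : D q = 0 := by
    rw [D, Measure.real]
    have : P {w | y w 0 ≠ y w q} = 0 := by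
      have h3 := ae_y0 h
      rw [ae_iff] at h3
      refine measure_mono_null ?_ h3
      intro w hw h4
      exact hw h4.symm
    rw [this]
    rfl
  rw [h2] at h1
  have : (0 : ℝ) < 1 / 32 / 2 ^ mm 5 := by positivity
  linarith

theorem not_rigid : ¬ Rigid (orbitClosure eta) mu := by
  rintro ⟨n, hn, h⟩
  set X := orbitClosure eta with hX
  have hXm : MeasurableSet X := isClosed_closure.measurableSet
  set B : ZMod 2 → Set (ℤ → ZMod 2) := fun c => X ∩ {x | x 0 = c} with hB
  have hev : ∀ c, MeasurableSet {x : ℤ → ZMod 2 | x 0 = c} := by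
    intro c
    have h0 : Measurable (fun x : ℤ → ZMod 2 => x 0) := measurable_pi_apply 0
    exact h0 (measurableSet_singleton c)
  have hBm : ∀ c, MeasurableSet (B c) := fun c => hXm.inter (hev c)
  have hsum : mu (B 0) + mu (B 1) = 1 := by
    have h1 : mu (X ∩ {x | x 0 = 0}) + mu (X \ {x | x 0 = 0}) = mu X :=
      measure_inter_add_sdiff X (hev 0)
    have h2 : X \ {x : ℤ → ZMod 2 | x 0 = 0} = B 1 := by
      ext x
      simp only [hB, Set.mem_sdiff, mem_inter_iff, mem_ofPred_eq]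
      have : ∀ a : ZMod 2, (¬ a = 0) ↔ a = 1 := by decide
      rw [this]
    have h3 : mu X = 1 := (prob_compl_eq_zero_iff hXm).1 mem_X
    rw [h2, h3] at h1
    exact h1
  have hlim : Tendsto (fun k => mu ((shift^[n k] '' B 0) ∩ B 0) + mu ((shift^[n k] '' B 1) ∩ B 1))
      atTop (𝓝 (mu (B 0) + mu (B 1))) :=
    (h (B 0) inter_subset_left (hBm 0)).add (h (B 1) inter_subset_left (hBm 1))
  rw [hsum] at hlim
  have hbound : ∀ᶠ k in atTop, mu ((shift^[n k] '' B 0) ∩ B 0) + mu ((shift^[n k] '' B 1) ∩ B 1) ≤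
      1 - ENNReal.ofReal (1 / 32 / 2 ^ mm 5) := by
    filter_upwards [hn.eventually_gt_atTop 0] with k hk
    rw [meas_image _ (hBm 0), meas_image _ (hBm 1)]
    have hD := D_lower hk
    have h1 : ENNReal.ofReal (1 / 32 / 2 ^ mm 5) ≤ P {w | y w 0 ≠ y w (n k : ℕ)} := by
      refine ENNReal.ofReal_le_of_le_toReal ?_
      exact hD
    have h2 : ∀ c, (y ⁻¹' B c) ∩ (⇑T)^[n k] ⁻¹' (y ⁻¹' B c) ⊆
        {w | y w 0 = c ∧ y w (n k : ℕ) = c} := by
      rintro c w ⟨⟨_, h3⟩, ⟨_, h4⟩⟩
      refine ⟨h3, ?_⟩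
      rw [mem_ofPred_eq, ← Tz_natCast, y_Tz, zero_add] at h4
      exact h4
    have hm : ∀ (a : ℤ) (c : ZMod 2), MeasurableSet {w : Om | y w a = c} := fun a c =>
      ((measurable_pi_apply a).comp measurable_y) (measurableSet_singleton c)
    have hm2 : ∀ c, MeasurableSet {w | y w 0 = c ∧ y w (n k : ℕ) = c} := fun c =>
      (hm 0 c).inter (hm (n k : ℕ) c)
    have h5 : P {w | y w 0 = 0 ∧ y w (n k : ℕ) = 0} + P {w | y w 0 = 1 ∧ y w (n k : ℕ) = 1} ≤
        P {w | y w 0 ≠ y w (n k : ℕ)}ᶜ := by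
      rw [← measure_union _ (hm2 1)]
      · apply measure_mono
        rintro w (⟨h6, h7⟩ | ⟨h6, h7⟩)
        · intro h8
          exact h8 (h6.trans h7.symm)
        · intro h8
          exact h8 (h6.trans h7.symm)
      · rw [Set.disjoint_left]
        rintro w ⟨h6, _⟩ ⟨h7, _⟩
        rw [h6] at h7
        exact absurd h7 (by decide)
    have h9 : P {w | y w 0 ≠ y w (n k : ℕ)}ᶜ = 1 - P {w | y w 0 ≠ y w (n k : ℕ)} :=
      prob_compl_eq_one_sub (measurableSet_ne 0 (n k : ℕ))
    calc P ((y ⁻¹' B 0) ∩ (⇑T)^[n k] ⁻¹' (y ⁻¹' B 0)) + P ((y ⁻¹' B 1) ∩ (⇑T)^[n k] ⁻¹' (y ⁻¹' B 1))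
        ≤ P {w | y w 0 = 0 ∧ y w (n k : ℕ) = 0} + P {w | y w 0 = 1 ∧ y w (n k : ℕ) = 1} :=
          add_le_add (measure_mono (h2 0)) (measure_mono (h2 1))
      _ ≤ 1 - P {w | y w 0 ≠ y w (n k : ℕ)} := h9 ▸ h5
      _ ≤ 1 - ENNReal.ofReal (1 / 32 / 2 ^ mm 5) := tsub_le_tsub_left h1 1
  have hfin := le_of_tendsto hlim hbound
  have hpos : (0 : ℝ≥0∞) < ENNReal.ofReal (1 / 32 / 2 ^ mm 5) := by
    rw [ENNReal.ofReal_pos]
    positivity
  have hlt : (1 : ℝ≥0∞) - ENNReal.ofReal (1 / 32 / 2 ^ mm 5) < 1 :=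
    ENNReal.sub_lt_self (by norm_num) (by norm_num) hpos.ne'
  exact absurd hfin (not_le.2 hlt)

/-- There is a Toeplitz sequence `x` over a two-letter alphabet and an ergodic shift-invariant
Borel probability measure `μ` on the Toeplitz system `X`, the orbit closure of `x`, such that
`(X, shift, μ)` is partially rigid, with the constant `1 / 4`, but not rigid. -/
theorem result :
    ∃ x : ℤ → ZMod 2, IsToeplitz x ∧
      ∃ μ : Measure (ℤ → ZMod 2), IsProbabilityMeasure μ ∧ μ (orbitClosure x)ᶜ = 0 ∧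
        Ergodic shift μ ∧ PartiallyRigid (orbitClosure x) μ (1 / 4) ∧
        ¬ Rigid (orbitClosure x) μ := by
  refine ⟨eta, ⟨eta_not_periodic, eta_toeplitz⟩, mu, inferInstance, ?_, ergodic_mu, ?_, not_rigid⟩
  · exact mem_X
  · refine ⟨fun k => 2 ^ k, tendsto_pow_atTop_atTop_of_one_lt one_lt_two, ?_⟩
    intro B _ hB
    have h1 := partial_T (measurable_y hB)
    simp only [meas_image _ hB]
    have h2 : P (y ⁻¹' B) = mu B := mp_y.measure_preimage hB.nullMeasurableSet
    rw [h2] at h1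
    refine le_trans (le_of_eq ?_) h1
    rw [one_div, ENNReal.ofReal_inv_of_pos (by norm_num), mul_comm, div_eq_mul_inv]
    norm_num

end Pool.Agent.Results.MP_6420b1_an.ThueMorseToeplitz
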